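import Pool.Agent.Helper72.LSr.N1
import Pool.Agent.Helper72.LSr.C1

/-!
# Piece LR-I7: the inequality (2)
-/

namespace Pool.Agent.Helper49.LSr

open Finset
open scoped Classical
open Pool.Agent.Helper72.LSr

variable {V : Type} (G : SimpleGraph V) (S : Finset V)

/-- cliques with at most one vertex in `R` -/
theorem K_union_ge (P R : Finset V) (hd : Disjoint P R) (r : ℕ) :
    K G P (r + 1) + ∑ y ∈ R, K G (nb G P y) r ≤ K G (P ∪ R) (r + 1) := by
  induction R using Finset.induction_on with
  | empty => simp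
  | insert a R ha ih =>
    rw [disjoint_insert_right] at hd
    have ih' := ih hd.2
    have hna : a ∉ P ∪ R := by
      rw [mem_union]; push Not; exact ⟨hd.1, ha⟩
    rw [sum_insert ha, union_insert, K_insert G hna]
    have h1 := K_mono G (nb_mono G (subset_union_left : P ⊆ P ∪ R) a) r
    linarith

theorem nb_union (P R : Finset V) (v : V) : nb G (P ∪ R) v = nb G P v ∪ nb G R v := by
  unfold nb; rw [filter_union]

/-- cliques with at most two vertices in `R` -/
theorem K_union_ge_two (P R : Finset V) (hd : Disjoint P R) (f : V → ℕ) (hf : Set.InjOn f R)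
    (r : ℕ) :
    K G P (r + 2) + ∑ y ∈ R, (K G (nb G P y) (r + 1)
        + ∑ y' ∈ Qf G R f y, K G (nb G P y ∩ nb G P y') r) ≤ K G (P ∪ R) (r + 2) := by
  induction R using Finset.induction_on_max_value f with
  | empty => simp
  | insert a R ha hmax ih =>
    rw [disjoint_insert_right] at hd
    have hf' : Set.InjOn f (R : Set V) := hf.mono (by simp)
    have ih' := ih hd.2 hf'
    have hlt : ∀ x ∈ R, f x < f a := by
      intro x hx
      refine lt_of_le_of_ne (hmax x hx) ?_
      intro h
      have := hf (by simp [hx]) (by simp) h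
      exact ha (this ▸ hx)
    have hna : a ∉ P ∪ R := by
      rw [mem_union]; push Not; exact ⟨hd.1, ha⟩
    have hQa : Qf G (insert a R) f a = nb G R a := by
      ext x
      unfold Qf
      rw [mem_filter, mem_nb, mem_insert]
      constructor
      · rintro ⟨h1 | h1, h2, h3⟩
        · subst h1; exact absurd h2 (G.loopless.irrefl _)
        · exact ⟨h1, h2⟩
      · rintro ⟨h1, h2⟩
        exact ⟨Or.inr h1, h2, hlt x h1⟩
    have hQu : ∀ u ∈ R, Qf G (insert a R) f u = Qf G R f u := by
      intro u hu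
      ext x
      unfold Qf
      rw [mem_filter, mem_filter, mem_insert]
      constructor
      · rintro ⟨h1 | h1, h2, h3⟩
        · subst h1
          exact absurd h3 (not_lt.2 (hlt u hu).le)
        · exact ⟨h1, h2, h3⟩
      · rintro ⟨h1, h2, h3⟩
        exact ⟨Or.inr h1, h2, h3⟩
    rw [sum_insert ha, union_insert, show r + 2 = (r + 1) + 1 from rfl, K_insert G hna, hQa]
    have hs : ∑ y ∈ R, (K G (nb G P y) (r + 1)
        + ∑ y' ∈ Qf G (insert a R) f y, K G (nb G P y ∩ nb G P y') r)
        = ∑ y ∈ R, (K G (nb G P y) (r + 1)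
        + ∑ y' ∈ Qf G R f y, K G (nb G P y ∩ nb G P y') r) := by
      apply sum_congr rfl
      intro y hy
      rw [hQu y hy]
    rw [hs, nb_union]
    have hd2 : Disjoint (nb G P a) (nb G R a) :=
      disjoint_of_subset_left (nb_subset G P a) (disjoint_of_subset_right (nb_subset G R a) hd.2)
    have h2 := K_union_ge G (nb G P a) (nb G R a) hd2 r
    have h3 : ∑ y ∈ nb G R a, K G (nb G (nb G P a) y) r
        = ∑ y' ∈ nb G R a, K G (nb G P a ∩ nb G P y') r := by
      apply sum_congr rfl
      intro y _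
      rw [nb_nb]
    rw [h3] at h2
    have h4 : K G P (r + 1 + 1) = K G P (r + 2) := rfl
    linarith

/-- edges of a union -/
theorem K_union_two (P R : Finset V) (hd : Disjoint P R) :
    K G (P ∪ R) 2 = K G P 2 + ∑ y ∈ R, ((nb G P y).card : ℤ) + K G R 2 := by
  induction R using Finset.induction_on with
  | empty => simp [show (2 : ℕ) = 1 + 1 from rfl, K_empty]
  | insert a R ha ih =>
    rw [disjoint_insert_right] at hd
    have ih' := ih hd.2
    have hna : a ∉ P ∪ R := by
      rw [mem_union]; push Not; exact ⟨hd.1, ha⟩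
    rw [sum_insert ha, union_insert, show (2 : ℕ) = 1 + 1 from rfl, K_insert G hna,
      K_insert G ha, K_one, K_one, nb_union, card_union_of_disjoint]
    · push_cast
      linarith
    · exact disjoint_of_subset_left (nb_subset G P a)
        (disjoint_of_subset_right (nb_subset G R a) hd.2)

variable {w : V} (hw : w ∈ S)

include hw

/-- `S = {w} ∪ L ∪ H` -/
theorem S_eq : S = insert w (nb G S w) ∪ NH G S w := by
  ext x
  unfold NH
  rw [mem_union, mem_insert, mem_nb, mem_filter]
  constructor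
  · intro hx
    by_cases h1 : x = w
    · exact Or.inl (Or.inl h1)
    · by_cases h2 : G.Adj w x
      · exact Or.inl (Or.inr ⟨hx, h2⟩)
      · exact Or.inr ⟨hx, h2, h1⟩
  · rintro ((h | h) | h)
    · rw [h]; exact hw
    · exact h.1
    · exact h.1

omit hw in
theorem S_disj : Disjoint (insert w (nb G S w)) (NH G S w) := by
  rw [disjoint_left]
  intro x hx hx'
  unfold NH at hx'
  rw [mem_filter] at hx'
  rw [mem_insert, mem_nb] at hx
  rcases hx with h | h
  · exact hx'.2.2 h
  · exact hx'.2.1 h.2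

omit hw in
theorem nb_P {y : V} (hy : y ∈ NH G S w) :
    nb G (insert w (nb G S w)) y = nb G S w \ Qs G S w y := by
  unfold NH at hy
  rw [mem_filter] at hy
  ext x
  unfold Qs
  rw [mem_nb, mem_insert, mem_sdiff, mem_nb, mem_filter]
  constructor
  · rintro ⟨h1 | h1, h2⟩
    · subst h1
      exact absurd h2.symm hy.2.1
    · exact ⟨h1, fun h => h.2.2 h2⟩
  · rintro ⟨h1, h2⟩
    refine ⟨Or.inr h1, ?_⟩
    by_contra h3
    exact h2 ⟨h1.1, h1.2, h3⟩

omit hw in
theorem Qs_sub (y : V) : Qs G S w y ⊆ nb G S w := by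
  intro x hx
  unfold Qs at hx
  rw [mem_filter] at hx
  rw [mem_nb]
  exact ⟨hx.1, hx.2.1⟩

omit hw in
theorem not_mem_L : w ∉ nb G S w := not_mem_nb_self G S w

omit hw in
theorem nb_L_w : nb G (nb G S w) w = nb G S w := by
  rw [nb_nb, inter_self]

/-- counting vertices -/
theorem card_S_eq : (S.card : ℤ) = 1 + (nb G S w).card + (NH G S w).card := by
  conv_lhs => rw [S_eq G S hw]
  rw [card_union_of_disjoint (S_disj G S), card_insert_of_notMem (not_mem_L G S)]
  push_cast; ring

/-- counting edges -/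
theorem edges_S_eq : K G S 2 = (nb G S w).card + K G (nb G S w) 2
    + ((NH G S w).card * (nb G S w).card - ∑ y ∈ NH G S w, ((Qs G S w y).card : ℤ))
    + K G (NH G S w) 2 := by
  conv_lhs => rw [S_eq G S hw]
  rw [K_union_two G _ _ (S_disj G S), show (2 : ℕ) = 1 + 1 from rfl,
    K_insert G (not_mem_L G S), nb_L_w, K_one]
  have h1 : ∑ y ∈ NH G S w, ((nb G (insert w (nb G S w)) y).card : ℤ)
      = (NH G S w).card * (nb G S w).card - ∑ y ∈ NH G S w, ((Qs G S w y).card : ℤ) := by
    rw [← nsmul_eq_mul, ← sum_const, ← sum_sub_distrib]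
    apply sum_congr rfl
    intro y hy
    rw [nb_P G S hy, cast_card_sdiff (Qs_sub G S y)]
  rw [h1]
  ring

theorem id_two_le (k A B j : ℕ) (f : V → ℕ) (hf : Set.InjOn f (NH G S w)) :
    Phi k A B (j + 2) G (nb G S w) + k * Phi k A B (j + 1) G (nb G S w)
      - (Dv k (A + 1) B G S w - MS k (A + 1) B S) *
          (es k A B (j + 1) * Yv k (A + 1) B G S w - Phi k A B (j + 1) G (nb G S w))
      + ∑ y ∈ NH G S w, gam k A B j G S w (Qs G S w y)
      - ∑ y ∈ NH G S w, ∑ y' ∈ Qf G (NH G S w) f y,
          aa k A B j G S w (Qs G S w y ∪ Qs G S w y')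
      ≤ Phi k (A + 1) B (j + 2) G S := by
  -- the clique count
  have h1 := K_union_ge_two G (insert w (nb G S w)) (NH G S w) (S_disj G S) f hf (j + 1)
  rw [← S_eq G S hw] at h1
  rw [show j + 1 + 2 = (j + 2) + 1 from rfl, K_insert G (not_mem_L G S), nb_L_w] at h1
  have h2 : ∑ y ∈ NH G S w, (K G (nb G (insert w (nb G S w)) y) (j + 1 + 1)
        + ∑ y' ∈ Qf G (NH G S w) f y,
          K G (nb G (insert w (nb G S w)) y ∩ nb G (insert w (nb G S w)) y') (j + 1))
      = ∑ y ∈ NH G S w, gam k A B j G S w (Qs G S w y)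
        - ∑ y ∈ NH G S w, ∑ y' ∈ Qf G (NH G S w) f y,
          aa k A B j G S w (Qs G S w y ∪ Qs G S w y')
        + (NH G S w).card * K G (nb G S w) (j + 2)
        - es k (A + 1) B (j + 2) * ∑ y ∈ NH G S w, ((Qs G S w y).card : ℤ)
        + es k (A + 1) B (j + 2) * K G (NH G S w) 2 := by
    have h3 : K G (NH G S w) 2 = ∑ y ∈ NH G S w, ((Qf G (NH G S w) f y).card : ℤ) := by
      rw [show (2 : ℕ) = 1 + 1 from rfl, K_last G (NH G S w) f hf]
      apply sum_congr rfl
      intro y _
      rw [K_one]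
    rw [h3, mul_sum, mul_sum, ← nsmul_eq_mul, ← sum_const, ← sum_sub_distrib,
      ← sum_add_distrib, ← sum_sub_distrib, ← sum_add_distrib]
    apply sum_congr rfl
    intro y hy
    rw [nb_P G S hy]
    have h4 : ∑ y' ∈ Qf G (NH G S w) f y,
          K G (nb G S w \ Qs G S w y ∩ nb G (insert w (nb G S w)) y') (j + 1)
        = es k (A + 1) B (j + 2) * ((Qf G (NH G S w) f y).card : ℤ)
          - ∑ y' ∈ Qf G (NH G S w) f y, aa k A B j G S w (Qs G S w y ∪ Qs G S w y') := by
      rw [mul_comm, ← nsmul_eq_mul, ← sum_const, ← sum_sub_distrib]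
      apply sum_congr rfl
      intro y' hy'
      have hy'' : y' ∈ NH G S w := by
        unfold Qf at hy'
        exact (mem_filter.1 hy').1
      rw [nb_P G S hy'']
      unfold aa
      rw [show nb G S w \ Qs G S w y ∩ (nb G S w \ Qs G S w y')
        = nb G S w \ (Qs G S w y ∪ Qs G S w y') from by
          rw [sdiff_union_distrib]]
      ring
    rw [h4]
    unfold gam
    rw [show j + 1 + 1 = j + 2 from rfl]
    ring
  rw [h2] at h1
  have hcS := card_S_eq G S hw
  have heS := edges_S_eq G S hw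
  set q := ∑ y ∈ NH G S w, ((Qs G S w y).card : ℤ) with hq
  set sg := ∑ y ∈ NH G S w, gam k A B j G S w (Qs G S w y) with hsg
  set sa := ∑ y ∈ NH G S w, ∑ y' ∈ Qf G (NH G S w) f y,
          aa k A B j G S w (Qs G S w y ∪ Qs G S w y') with hsa
  unfold Phi
  have e3 : es k (A + 1) B 3 = es k A B 3 + k * EE k A B := es3_sA k A B
  have e1 : EE k (A + 1) B = EE k A B + k := EE_sA k A B
  have x4 : es k (A + 1) B (j + 4) = es k A B (j + 4) + k * es k A B (j + 3) :=
    es_sA k A B (j + 3)
  have x3 : es k (A + 1) B (j + 3) = es k A B (j + 3) + k * es k A B (j + 2) :=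
    es_sA k A B (j + 2)
  have x2 : es k (A + 1) B (j + 2) = es k A B (j + 2) + k * es k A B (j + 1) :=
    es_sA k A B (j + 1)
  unfold Vl Dv MS Yv Mm th nu
  have h5 : K G (nb G S w) (j + 3) + K G (nb G S w) (j + 2)
      + (sg - sa + (NH G S w).card * K G (nb G S w) (j + 2)
        - (es k A B (j + 2) + k * es k A B (j + 1)) * q
        + (es k A B (j + 2) + k * es k A B (j + 1)) * K G (NH G S w) 2)
      ≤ K G S (j + 3) := by
    rw [← x2]; exact h1
  rw [show j + 2 + 2 = j + 4 from rfl, show j + 2 + 1 = j + 3 from rfl,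
    show j + 1 + 2 = j + 3 from rfl, show j + 1 + 1 = j + 2 from rfl]
  rw [x4, x3, x2, e3, e1, heS, hcS]
  refine le_trans (le_of_eq ?_) (sub_le_sub_right h5 _)
  ring

end Pool.Agent.Helper49.LSr
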